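import Mathlib

/-!
# Length-increasing topological embeddings into the unit ball (MP_ecd4e3_gt, Q1)

For `n ≥ 2` there is a topological embedding `f` of the whole space `ℝ^n` into the unit ball such
that `f ∘ γ` has infinite length for every nonconstant rectifiable curve `γ`.  For `n = 1` every
open set of measure at most `2` has a length-preserving embedding into `[-1, 1]`.

Construction for `n ≥ 2`.  Let `W : ℝ → ℝ` be a bounded continuous even function with infinite
variation on every interval.  If `x` is a continuous nonconstant real function on an interval then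
`W ∘ x` has infinite variation, and so has `y + W ∘ x` for every `y` of bounded variation.  Hence
the composition `T` of the shears `z_j = x_j + W (x_{j-1})` (`j ≥ 1`) and `z_0 = x_0 + W (z_{n-1})`
maps every nonconstant rectifiable curve to a curve of infinite length.  `T` is continuous,
injective and at bounded distance from the identity, so it is a closed embedding.  Finally all
coordinates are compressed by `arctan`, which is bi-Lipschitz on bounded intervals.
-/

set_option autoImplicit false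

namespace Pool.Agent.Results.MP_ecd4e3_gt.TopologicalSponge

open Set Filter Topology MeasureTheory
open scoped ENNReal NNReal

/-- The length of the curve `γ : [a, b] → ℝ^n`: the supremum of the lengths of inscribed polygons. -/
noncomputable def curveLength {n : ℕ} (γ : ℝ → EuclideanSpace ℝ (Fin n)) (a b : ℝ) : ℝ≥0∞ :=
  eVariationOn γ (Icc a b)

/-- `f` is length-increasing on `U`: for every rectifiable curve `γ : [a, b] → U` the curve `f ∘ γ`
is at least as long as `γ`. -/
def LengthIncreasing {n : ℕ} (U : Set (EuclideanSpace ℝ (Fin n)))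
    (f : EuclideanSpace ℝ (Fin n) → EuclideanSpace ℝ (Fin n)) : Prop :=
  ∀ (γ : ℝ → EuclideanSpace ℝ (Fin n)) (a b : ℝ), a ≤ b → ContinuousOn γ (Icc a b) →
    MapsTo γ (Icc a b) U → curveLength γ a b ≠ ⊤ → curveLength γ a b ≤ curveLength (f ∘ γ) a b

/-- A continuous even function with infinite variation on every interval. -/
noncomputable def W (x : ℝ) : ℝ := ∑' k : ℕ, (1 / 2 : ℝ) ^ k * Real.cos (Real.pi * 16 ^ k * x)

lemma W_summable (x : ℝ) : Summable fun k : ℕ => (1 / 2 : ℝ) ^ k * Real.cos (Real.pi * 16 ^ k * x) := by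
  refine Summable.of_norm_bounded (g := fun k : ℕ => (1 / 2 : ℝ) ^ k)
    (summable_geometric_of_lt_one (by norm_num) (by norm_num)) fun k => ?_
  rw [norm_mul, norm_pow, Real.norm_eq_abs, Real.norm_eq_abs]
  have := Real.abs_cos_le_one (Real.pi * 16 ^ k * x)
  have h2 : |(1 / 2 : ℝ)| = 1 / 2 := abs_of_pos (by norm_num)
  rw [h2]
  exact mul_le_of_le_one_right (by positivity) this

lemma W_continuous : Continuous W := by
  refine continuous_tsum (u := fun k : ℕ => (1 / 2 : ℝ) ^ k) (fun k => by fun_prop)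
    (summable_geometric_of_lt_one (by norm_num) (by norm_num)) fun k x => ?_
  rw [norm_mul, norm_pow, Real.norm_eq_abs, Real.norm_eq_abs]
  have := Real.abs_cos_le_one (Real.pi * 16 ^ k * x)
  have h2 : |(1 / 2 : ℝ)| = 1 / 2 := abs_of_pos (by norm_num)
  rw [h2]
  exact mul_le_of_le_one_right (by positivity) this

lemma W_neg (x : ℝ) : W (-x) = W x := by
  unfold W
  congr 1
  ext k
  rw [mul_neg, Real.cos_neg]

lemma W_bound (x : ℝ) : |W x| ≤ 2 := by
  have h := tsum_of_norm_bounded (f := fun k : ℕ => (1 / 2 : ℝ) ^ k * Real.cos (Real.pi * 16 ^ k * x))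
    (g := fun k : ℕ => (1 / 2 : ℝ) ^ k) (a := 2)
    (by have := hasSum_geometric_of_lt_one (r := (1 / 2 : ℝ)) (by norm_num) (by norm_num)
        convert this using 1; norm_num) (fun k => by
      rw [norm_mul, norm_pow, Real.norm_eq_abs, Real.norm_eq_abs]
      have := Real.abs_cos_le_one (Real.pi * 16 ^ k * x)
      have h2 : |(1 / 2 : ℝ)| = 1 / 2 := abs_of_pos (by norm_num)
      rw [h2]
      exact mul_le_of_le_one_right (by positivity) this)
  rw [Real.norm_eq_abs] at h
  exact h

/-- The increment of `W` over a step of length `16 ^ (-m)` on the grid. -/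
lemma W_step (m : ℕ) (j : ℤ) : (1 / 2 : ℝ) ^ m ≤ |W ((j + 1) / 16 ^ m) - W (j / 16 ^ m)| := by
  have h16 : (16 : ℝ) ^ m ≠ 0 := by positivity
  unfold W
  rw [← (W_summable _).tsum_sub (W_summable _)]
  set d : ℕ → ℝ := fun k => (1 / 2 : ℝ) ^ k * Real.cos (Real.pi * 16 ^ k * ((j + 1) / 16 ^ m)) -
    (1 / 2 : ℝ) ^ k * Real.cos (Real.pi * 16 ^ k * (j / 16 ^ m)) with hd
  have hbig : ∀ k ∉ Finset.range (m + 1), d k = 0 := by
    intro k hk
    have hk' : m < k := by simpa using hk
    obtain ⟨r, rfl⟩ : ∃ r, k = m + 1 + r := ⟨k - (m + 1), by omega⟩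
    have e1 : Real.pi * 16 ^ (m + 1 + r) * ((j + 1) / 16 ^ m) =
        ((8 * 16 ^ r * (j + 1) : ℤ) : ℝ) * (2 * Real.pi) := by
      push_cast; field_simp; ring
    have e2 : Real.pi * 16 ^ (m + 1 + r) * (j / 16 ^ m) =
        ((8 * 16 ^ r * j : ℤ) : ℝ) * (2 * Real.pi) := by
      push_cast; field_simp; ring
    simp only [hd]
    rw [e1, e2, Real.cos_int_mul_two_pi, Real.cos_int_mul_two_pi]; ring
  rw [tsum_eq_sum hbig, Finset.sum_range_succ]
  have hm : |d m| = 2 * (1 / 2) ^ m := by
    simp only [hd]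
    have e1 : Real.pi * 16 ^ m * ((j + 1) / 16 ^ m) = (j : ℝ) * Real.pi + Real.pi := by
      field_simp
    have e2 : Real.pi * 16 ^ m * (j / 16 ^ m) = (j : ℝ) * Real.pi := by field_simp
    rw [e1, e2, Real.cos_add_pi]
    have h3 : |Real.cos ((j : ℝ) * Real.pi)| = 1 := by
      rw [Real.cos_int_mul_pi]
      simp
    rw [show (1 / 2 : ℝ) ^ m * -Real.cos (j * Real.pi) - (1 / 2) ^ m * Real.cos (j * Real.pi) =
      -(2 * (1 / 2) ^ m) * Real.cos (j * Real.pi) by ring, abs_mul, h3, mul_one, abs_neg,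
      abs_of_pos (by positivity)]
  have hsmall : ∀ k ∈ Finset.range m, |d k| ≤ 4 * 8 ^ k / 16 ^ m := by
    intro k _
    simp only [hd]
    rw [← mul_sub, abs_mul, abs_of_pos (by positivity : (0 : ℝ) < (1 / 2) ^ k)]
    have hc : |Real.cos (Real.pi * 16 ^ k * ((j + 1) / 16 ^ m)) -
        Real.cos (Real.pi * 16 ^ k * (j / 16 ^ m))| ≤ Real.pi * 16 ^ k / 16 ^ m := by
      have := Real.abs_cos_sub_cos_le (Real.pi * 16 ^ k * ((j + 1) / 16 ^ m)) (Real.pi * 16 ^ k * (j / 16 ^ m))
      refine this.trans (le_of_eq ?_)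
      rw [← mul_sub, ← sub_div, add_sub_cancel_left, mul_one_div, abs_of_pos (by positivity)]
    have hpi : Real.pi ≤ 4 := Real.pi_le_four
    calc (1 / 2 : ℝ) ^ k * _ ≤ (1 / 2) ^ k * (4 * 16 ^ k / 16 ^ m) := by
          gcongr
          exact hc.trans (by gcongr)
      _ = 4 * 8 ^ k / 16 ^ m := by
          rw [mul_div_assoc', mul_left_comm, ← mul_pow]; norm_num
  have hsum : |∑ k ∈ Finset.range m, d k| ≤ (4 / 7) * (1 / 2) ^ m := by
    calc |∑ k ∈ Finset.range m, d k| ≤ ∑ k ∈ Finset.range m, 4 * 8 ^ k / 16 ^ m :=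
          (Finset.abs_sum_le_sum_abs _ _).trans (Finset.sum_le_sum hsmall)
      _ = 4 * ((8 ^ m - 1) / (8 - 1)) / 16 ^ m := by
          rw [← Finset.sum_div, ← Finset.mul_sum, geom_sum_eq (by norm_num)]
      _ ≤ (4 / 7) * (1 / 2) ^ m := by
          rw [div_le_iff₀ (by positivity), mul_assoc, ← mul_pow]
          norm_num
          nlinarith [pow_pos (by norm_num : (0:ℝ) < 8) m]
  have hpos : (0 : ℝ) < (1 / 2) ^ m := by positivity
  have := abs_sub_abs_le_abs_sub (d m) (-(∑ k ∈ Finset.range m, d k))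
  rw [abs_neg, sub_neg_eq_add, add_comm (d m)] at this
  rw [hm] at this
  linarith


lemma W_infinite {u v : ℝ} (huv : u < v) : eVariationOn W (Icc u v) = ⊤ := by
  refine ENNReal.eq_top_of_forall_nnreal_le fun M => ?_
  -- choose `m` with many grid points in `[u, v]`
  obtain ⟨m, hm1, hm2⟩ : ∃ m : ℕ, 4 ≤ (v - u) * 16 ^ m ∧ (M : ℝ) * 4 ≤ (v - u) * 8 ^ m := by
    have t8 : Tendsto (fun m : ℕ => (v - u) * (8 : ℝ) ^ m) atTop atTop :=
      (tendsto_pow_atTop_atTop_of_one_lt (by norm_num)).const_mul_atTop (by linarith)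
    have t16 : Tendsto (fun m : ℕ => (v - u) * (16 : ℝ) ^ m) atTop atTop :=
      (tendsto_pow_atTop_atTop_of_one_lt (by norm_num)).const_mul_atTop (by linarith)
    exact ((t16.eventually_ge_atTop 4).and (t8.eventually_ge_atTop ((M : ℝ) * 4))).exists
  set a : ℤ := ⌈u * 16 ^ m⌉ with ha
  set N : ℕ := ⌊(v - u) * 16 ^ m / 2⌋₊ with hN
  have h16 : (0 : ℝ) < 16 ^ m := by positivity
  have ha1 : u * 16 ^ m ≤ a := Int.le_ceil _
  have ha2 : (a : ℝ) < u * 16 ^ m + 1 := Int.ceil_lt_add_one _
  have hNle : (N : ℝ) ≤ (v - u) * 16 ^ m / 2 := Nat.floor_le (by nlinarith)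
  have hNge : (v - u) * 16 ^ m / 2 < N + 1 := Nat.lt_floor_add_one _
  let g : ℕ → ℝ := fun i => ((a + i : ℤ) : ℝ) / 16 ^ m
  have hg : MonotoneOn g (Icc 0 N) := by
    intro i _ j _ hij
    simp only [g]
    gcongr
  have hgI : ∀ i ∈ Icc 0 N, g i ∈ Icc u v := by
    intro i hi
    have hi' : (i : ℝ) ≤ N := by exact_mod_cast hi.2
    simp only [g, mem_Icc]
    rw [le_div_iff₀ h16, div_le_iff₀ h16]
    push_cast
    constructor
    · have : (0 : ℝ) ≤ i := Nat.cast_nonneg i
      linarith
    · nlinarith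
  have key := eVariationOn.sum_le_of_monotoneOn_Icc (f := W) hg hgI
  refine le_trans ?_ key
  calc (M : ℝ≥0∞) = ENNReal.ofReal M := (ENNReal.ofReal_coe_nnreal).symm
    _ ≤ ENNReal.ofReal (∑ i ∈ Finset.Ico 0 N, (1 / 2 : ℝ) ^ m) := by
        apply ENNReal.ofReal_le_ofReal
        rw [Finset.sum_const, Nat.card_Ico, Nat.sub_zero, nsmul_eq_mul]
        have e : (8 : ℝ) ^ m = 16 ^ m * (1 / 2) ^ m := by rw [← mul_pow]; norm_num
        have hpos : (0 : ℝ) < (1 / 2) ^ m := by positivity
        have h4 : (v - u) * 16 ^ m / 4 ≤ N := by linarith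
        have h5 := mul_le_mul_of_nonneg_right h4 hpos.le
        rw [e] at hm2
        linarith
    _ = ∑ i ∈ Finset.Ico 0 N, ENNReal.ofReal ((1 / 2 : ℝ) ^ m) := by
        rw [ENNReal.ofReal_sum_of_nonneg fun _ _ => by positivity]
    _ ≤ ∑ i ∈ Finset.Ico 0 N, edist (W (g (i + 1))) (W (g i)) := by
        refine Finset.sum_le_sum fun i _ => ?_
        rw [edist_dist, Real.dist_eq]
        apply ENNReal.ofReal_le_ofReal
        have := W_step m (a + i)
        simp only [g]
        push_cast at this ⊢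
        rw [← add_assoc]
        exact this

/-- `W ∘ x` has infinite variation for every continuous nonconstant `x`. -/
lemma W_comp_aux {a b : ℝ} {x : ℝ → ℝ} (hx : ContinuousOn x (Icc a b)) {s t : ℝ}
    (hs : s ∈ Icc a b) (ht : t ∈ Icc a b) (hst : s ≤ t) (hlt : x s < x t) :
    eVariationOn (fun r => W (x r)) (Icc a b) = ⊤ := by
  have hsub : Icc s t ⊆ Icc a b := Icc_subset_Icc hs.1 ht.2
  have hx' := hx.mono hsub
  let g : ℝ → ℝ := fun v => sInf {r | r ∈ Icc s t ∧ v ≤ x r}
  have hne : ∀ v ∈ Icc (x s) (x t), {r | r ∈ Icc s t ∧ v ≤ x r}.Nonempty := fun v hv =>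
    ⟨t, ⟨hst, le_rfl⟩, hv.2⟩
  have hbdd : ∀ v, BddBelow {r | r ∈ Icc s t ∧ v ≤ x r} := fun v => ⟨s, fun r hr => hr.1.1⟩
  have hclosed : ∀ v, IsClosed {r | r ∈ Icc s t ∧ v ≤ x r} := fun v => by
    have := hx'.preimage_isClosed_of_isClosed isClosed_Icc (isClosed_Ici (a := v))
    exact this
  have hgmem : ∀ v ∈ Icc (x s) (x t), g v ∈ Icc s t ∧ v ≤ x (g v) := fun v hv =>
    (hclosed v).csInf_mem (hne v hv) (hbdd v)
  have hgeq : ∀ v ∈ Icc (x s) (x t), x (g v) = v := by
    intro v hv
    obtain ⟨h1, h2⟩ := hgmem v hv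
    refine le_antisymm ?_ h2
    by_contra hcon
    push Not at hcon
    obtain ⟨r, hr, hrv⟩ := intermediate_value_Icc h1.1
      (hx'.mono (Icc_subset_Icc le_rfl h1.2)) ⟨hv.1, hcon.le⟩
    have hle : g v ≤ r := csInf_le (hbdd v) ⟨⟨hr.1, hr.2.trans h1.2⟩, hrv.ge⟩
    have : r = g v := le_antisymm hr.2 hle
    rw [this] at hrv
    exact absurd hrv hcon.ne'
  have hgmono : MonotoneOn g (Icc (x s) (x t)) := by
    intro v hv w hw hvw
    exact csInf_le_csInf (hbdd v) (hne w hw) fun r hr => ⟨hr.1, hvw.trans hr.2⟩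
  have h1 := eVariationOn.comp_le_of_monotoneOn (fun r => W (x r)) (s := Icc a b) g hgmono
    (fun v hv => hsub (hgmem v hv).1)
  have h2 : eVariationOn ((fun r => W (x r)) ∘ g) (Icc (x s) (x t)) = ⊤ := by
    rw [← W_infinite hlt]
    exact eVariationOn.congr fun v hv => by simp [hgeq v hv]
  rw [h2] at h1
  exact top_le_iff.1 h1

lemma W_comp {a b : ℝ} {x : ℝ → ℝ} (hx : ContinuousOn x (Icc a b)) {s t : ℝ}
    (hs : s ∈ Icc a b) (ht : t ∈ Icc a b) (hne : x s ≠ x t) :
    eVariationOn (fun r => W (x r)) (Icc a b) = ⊤ := by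
  have hneg : (fun r => W (x r)) = fun r => W (-x r) := by ext r; rw [W_neg]
  rcases le_total s t with hst | hst <;> rcases lt_or_gt_of_ne hne with h | h
  · exact W_comp_aux hx hs ht hst h
  · rw [hneg]; exact W_comp_aux (x := fun r => -x r) hx.neg hs ht hst (neg_lt_neg h)
  · rw [hneg]; exact W_comp_aux (x := fun r => -x r) hx.neg ht hs hst (neg_lt_neg h)
  · exact W_comp_aux hx ht hs hst h

/-- If `y` has finite and `w` has infinite variation then `y + w` has infinite variation. -/
lemma variation_add_top {s : Set ℝ} {y w : ℝ → ℝ} (hy : eVariationOn y s ≠ ⊤)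
    (hw : eVariationOn w s = ⊤) : eVariationOn (fun r => y r + w r) s = ⊤ := by
  by_contra hcon
  have hle : eVariationOn w s ≤ eVariationOn (fun r => y r + w r) s + eVariationOn y s := by
    refine iSup_le fun p => ?_
    calc ∑ i ∈ Finset.range p.1, edist (w (p.2.1 (i + 1))) (w (p.2.1 i))
        ≤ ∑ i ∈ Finset.range p.1, (edist (y (p.2.1 (i + 1)) + w (p.2.1 (i + 1)))
            (y (p.2.1 i) + w (p.2.1 i)) + edist (y (p.2.1 (i + 1))) (y (p.2.1 i))) := by
          refine Finset.sum_le_sum fun i _ => ?_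
          rw [edist_dist, edist_dist, edist_dist, ← ENNReal.ofReal_add dist_nonneg dist_nonneg]
          apply ENNReal.ofReal_le_ofReal
          simp only [Real.dist_eq]
          have := abs_sub (y (p.2.1 (i + 1)) + w (p.2.1 (i + 1)) - (y (p.2.1 i) + w (p.2.1 i)))
            (y (p.2.1 (i + 1)) - y (p.2.1 i))
          refine le_trans (le_of_eq ?_) this
          ring_nf
      _ = _ := Finset.sum_add_distrib
      _ ≤ _ := add_le_add (eVariationOn.sum_le (f := fun r => y r + w r) p.2.2.1 p.2.2.2)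
          (eVariationOn.sum_le (f := y) p.2.2.1 p.2.2.2)
  rw [hw, top_le_iff, ENNReal.add_eq_top] at hle
  exact hle.elim hcon hy

/-! ### The map for `n ≥ 2` -/

lemma variation_le {E E' : Type} [PseudoEMetricSpace E] [PseudoEMetricSpace E'] {g : ℝ → E}
    {h : ℝ → E'} {s : Set ℝ} {C : ℝ≥0∞}
    (H : ∀ x ∈ s, ∀ y ∈ s, edist (g x) (g y) ≤ C * edist (h x) (h y)) :
    eVariationOn g s ≤ C * eVariationOn h s := by
  refine iSup_le fun p => ?_
  calc ∑ i ∈ Finset.range p.1, edist (g (p.2.1 (i + 1))) (g (p.2.1 i))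
      ≤ ∑ i ∈ Finset.range p.1, C * edist (h (p.2.1 (i + 1))) (h (p.2.1 i)) :=
        Finset.sum_le_sum fun i _ => H _ (p.2.2.2 _) _ (p.2.2.2 _)
    _ = C * ∑ i ∈ Finset.range p.1, edist (h (p.2.1 (i + 1))) (h (p.2.1 i)) :=
        (Finset.mul_sum _ _ _).symm
    _ ≤ _ := mul_le_mul_right (eVariationOn.sum_le p.2.2.1 p.2.2.2) _

/-- The composition of shears. -/
noncomputable def T (m : ℕ) (x : Fin (m + 2) → ℝ) : Fin (m + 2) → ℝ :=
  Fin.cons (x 0 + W (x (Fin.last m).succ + W (x (Fin.last m).castSucc)))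
    fun j : Fin (m + 1) => x j.succ + W (x j.castSucc)

lemma T_zero (m : ℕ) (x : Fin (m + 2) → ℝ) :
    T m x 0 = x 0 + W (x (Fin.last m).succ + W (x (Fin.last m).castSucc)) := rfl

lemma T_succ (m : ℕ) (x : Fin (m + 2) → ℝ) (j : Fin (m + 1)) :
    T m x j.succ = x j.succ + W (x j.castSucc) := rfl

lemma T_continuous (m : ℕ) : Continuous (T m) := by
  refine continuous_pi fun j => ?_
  have hW := W_continuous
  refine Fin.cases ?_ (fun j => ?_) j
  · simp only [T_zero]
    fun_prop
  · simp only [T_succ]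
    fun_prop

lemma T_injective (m : ℕ) : Function.Injective (T m) := by
  intro x y h
  have h0 : x 0 = y 0 := by
    have h1 := congrFun h (Fin.last m).succ
    have h2 := congrFun h 0
    rw [T_succ, T_succ] at h1
    rw [T_zero, T_zero, h1] at h2
    linarith
  ext j
  induction j using Fin.induction with
  | zero => exact h0
  | succ j ih =>
    have h1 := congrFun h j.succ
    rw [T_succ, T_succ, ih] at h1
    linarith

lemma T_dist (m : ℕ) (x : Fin (m + 2) → ℝ) : ‖T m x - x‖ ≤ 2 := by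
  rw [pi_norm_le_iff_of_nonneg (by norm_num)]
  intro j
  refine Fin.cases ?_ (fun j => ?_) j
  · rw [Pi.sub_apply, T_zero, add_sub_cancel_left]
    exact W_bound _
  · rw [Pi.sub_apply, T_succ, add_sub_cancel_left]
    exact W_bound _

lemma T_isEmbedding (m : ℕ) : IsEmbedding (T m) := by
  have hproper : IsProperMap (T m) := by
    rw [isProperMap_iff_tendsto_cocompact]
    refine ⟨T_continuous m, ?_⟩
    rw [← Metric.cobounded_eq_cocompact, ← tendsto_norm_atTop_iff_cobounded]
    have h1 : Tendsto (fun x : Fin (m + 2) → ℝ => ‖x‖ - 2) (Bornology.cobounded _) atTop :=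
      tendsto_atTop_add_const_right _ _ tendsto_norm_cobounded_atTop
    refine tendsto_atTop_mono (fun x => ?_) h1
    have h2 := T_dist m x
    have h3 := norm_sub_norm_le x (x - T m x)
    rw [norm_sub_rev x (T m x)] at h3
    have h4 : x - (x - T m x) = T m x := by abel
    rw [h4] at h3
    linarith
  exact (IsClosedEmbedding.of_continuous_injective_isClosedMap (T_continuous m) (T_injective m)
    hproper.isClosedMap).isEmbedding

/-- The embedding of `ℝ^n` into the unit ball. -/
noncomputable def F (m : ℕ) (x : EuclideanSpace ℝ (Fin (m + 2))) :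
    EuclideanSpace ℝ (Fin (m + 2)) :=
  WithLp.toLp 2 fun j => Real.arctan (T m (WithLp.ofLp x) j) / (2 * (m + 2))

lemma F_isEmbedding (m : ℕ) : IsEmbedding (F m) := by
  have h1 : IsEmbedding fun t : ℝ => Real.arctan t / (2 * (m + 2)) := by
    have hpos : (0 : ℝ) < 2 * (m + 2) := by positivity
    have hmono : StrictMono fun t : ℝ => Real.arctan t / (2 * (m + 2)) := fun s t hst =>
      div_lt_div_of_pos_right (Real.arctan_strictMono hst) hpos
    have hcont : Continuous fun t : ℝ => Real.arctan t / (2 * (m + 2)) := by fun_prop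
    have : OrdConnected (range fun t : ℝ => Real.arctan t / (2 * (m + 2))) :=
      (isPreconnected_range hcont).ordConnected
    exact StrictMono.isEmbedding_of_ordConnected hmono this
  have h2 : IsEmbedding (Pi.map fun (_ : Fin (m + 2)) (t : ℝ) => Real.arctan t / (2 * (m + 2))) :=
    IsEmbedding.piMap fun _ => h1
  have h3 := (PiLp.homeomorph 2 fun _ : Fin (m + 2) => ℝ).symm.isEmbedding.comp
    (h2.comp ((T_isEmbedding m).comp (PiLp.homeomorph 2 fun _ : Fin (m + 2) => ℝ).isEmbedding))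
  exact h3

lemma F_mem_ball (m : ℕ) (x : EuclideanSpace ℝ (Fin (m + 2))) : ‖F m x‖ < 1 := by
  have hpos : (0 : ℝ) < 2 * (m + 2) := by positivity
  have hle : ∀ j, ‖F m x j‖ ≤ 1 / (m + 2) := by
    intro j
    have h1 := Real.arctan_lt_pi_div_two (T m (WithLp.ofLp x) j)
    have h2 := Real.neg_pi_div_two_lt_arctan (T m (WithLp.ofLp x) j)
    have h3 := Real.pi_le_four
    change |Real.arctan (T m (WithLp.ofLp x) j) / (2 * (m + 2))| ≤ 1 / (m + 2)
    rw [abs_div, abs_of_pos hpos, div_le_div_iff₀ hpos (by positivity)]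
    have h4 : |Real.arctan (T m (WithLp.ofLp x) j)| ≤ 2 := abs_le.2 ⟨by linarith, by linarith⟩
    nlinarith [abs_nonneg (Real.arctan (T m (WithLp.ofLp x) j))]
  rw [EuclideanSpace.norm_eq]
  rw [Real.sqrt_lt' one_pos, one_pow]
  calc ∑ j, ‖F m x j‖ ^ 2 ≤ ∑ _j : Fin (m + 2), (1 / ((m : ℝ) + 2)) ^ 2 :=
        Finset.sum_le_sum fun j _ => pow_le_pow_left₀ (norm_nonneg _) (hle j) 2
    _ = 1 / (m + 2) := by
        rw [Finset.sum_const, Finset.card_univ, Fintype.card_fin, nsmul_eq_mul]
        push_cast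
        field_simp
    _ < 1 := by
        rw [div_lt_one (by positivity)]
        have : (0 : ℝ) ≤ m := Nat.cast_nonneg m
        linarith

lemma arctan_lower {R s t : ℝ} (hs : |s| ≤ R) (ht : |t| ≤ R) :
    |s - t| ≤ (1 + R ^ 2) * |Real.arctan s - Real.arctan t| := by
  wlog hst : s ≤ t generalizing s t
  · rw [abs_sub_comm, abs_sub_comm (Real.arctan s)]
    exact this ht hs (le_of_not_ge hst)
  have hR : 0 ≤ R := (abs_nonneg s).trans hs
  have key : 1 / (1 + R ^ 2) * (t - s) ≤ Real.arctan t - Real.arctan s := by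
    refine Convex.mul_sub_le_image_sub_of_le_deriv (convex_Icc (-R) R)
      Real.continuous_arctan.continuousOn (Real.differentiable_arctan.differentiableOn)
      (fun x hx => ?_) s (abs_le.1 hs) t (abs_le.1 ht) hst
    rw [interior_Icc] at hx
    rw [Real.deriv_arctan]
    apply one_div_le_one_div_of_le (by positivity)
    have : x ^ 2 ≤ R ^ 2 := sq_le_sq' hx.1.le hx.2.le
    linarith
  rw [abs_sub_comm, abs_of_nonneg (sub_nonneg.2 hst), abs_sub_comm,
    abs_of_nonneg (sub_nonneg.2 (Real.arctan_strictMono.monotone hst))]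
  have hpos : (0 : ℝ) < 1 + R ^ 2 := by positivity
  rw [one_div, inv_mul_le_iff₀ hpos] at key
  exact key

/-- The image under `F` of a nonconstant rectifiable curve has infinite length. -/
lemma F_length (m : ℕ) {γ : ℝ → EuclideanSpace ℝ (Fin (m + 2))} {a b : ℝ}
    (hγ : ContinuousOn γ (Icc a b)) (hrect : eVariationOn γ (Icc a b) ≠ ⊤) {s t : ℝ}
    (hs : s ∈ Icc a b) (ht : t ∈ Icc a b) (hne : γ s ≠ γ t) :
    eVariationOn (F m ∘ γ) (Icc a b) = ⊤ := by
  have hab : a ≤ b := hs.1.trans hs.2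
  have hcont : ∀ j, ContinuousOn (fun r => γ r j) (Icc a b) := fun j =>
    (PiLp.continuous_apply 2 _ j).comp_continuousOn hγ
  have hbv : ∀ j, eVariationOn (fun r => γ r j) (Icc a b) ≠ ⊤ := by
    intro j
    refine ne_top_of_le_ne_top hrect ?_
    rw [← one_mul (eVariationOn γ (Icc a b))]
    refine variation_le fun x _ y _ => ?_
    rw [one_mul, edist_dist, edist_dist]
    apply ENNReal.ofReal_le_ofReal
    rw [dist_eq_norm, dist_eq_norm]
    exact PiLp.norm_apply_le (γ x - γ y) j
  -- a coordinate of `T ∘ γ` of infinite variation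
  obtain ⟨i, hi⟩ : ∃ i : Fin (m + 2),
      eVariationOn (fun r => T m (WithLp.ofLp (γ r)) i) (Icc a b) = ⊤ := by
    by_cases hex : ∃ j : Fin (m + 1), γ s j.castSucc ≠ γ t j.castSucc
    · obtain ⟨j, hj⟩ := hex
      exact ⟨j.succ, variation_add_top (hbv _) (W_comp (hcont _) hs ht hj)⟩
    · by_cases hex2 : ∃ j : Fin (m + 1), ∃ r ∈ Icc a b, γ r j.castSucc ≠ γ s j.castSucc
      · obtain ⟨j, r, hr, hj⟩ := hex2
        exact ⟨j.succ, variation_add_top (hbv _) (W_comp (hcont _) hr hs hj)⟩
      · push Not at hex hex2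
        refine ⟨0, variation_add_top (hbv _) (W_comp
          (x := fun r => γ r (Fin.last m).succ + W (γ r (Fin.last m).castSucc))
          ((hcont _).add (W_continuous.comp_continuousOn (hcont _))) hs ht ?_)⟩
        intro heq
        apply hne
        ext j
        refine Fin.lastCases ?_ (fun j => ?_) j
        · simp only [hex2 _ t ht] at heq
          simpa using heq
        · exact hex j
  -- bound for this coordinate
  have hTc : ContinuousOn (fun r => T m (WithLp.ofLp (γ r)) i) (Icc a b) :=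
    ((continuous_apply i).comp ((T_continuous m).comp
      (PiLp.continuous_ofLp 2 _))).comp_continuousOn hγ
  obtain ⟨R, hR⟩ := isCompact_Icc.exists_bound_of_continuousOn hTc
  have hle : eVariationOn (fun r => T m (WithLp.ofLp (γ r)) i) (Icc a b) ≤
      ENNReal.ofReal ((1 + R ^ 2) * (2 * (m + 2))) * eVariationOn (F m ∘ γ) (Icc a b) := by
    refine variation_le fun x hx y hy => ?_
    rw [edist_dist, edist_dist, ← ENNReal.ofReal_mul (by positivity)]
    apply ENNReal.ofReal_le_ofReal
    rw [Real.dist_eq]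
    refine (arctan_lower (hR x hx) (hR y hy)).trans ?_
    rw [mul_assoc]
    gcongr
    have h1 := PiLp.norm_apply_le ((F m ∘ γ) x - (F m ∘ γ) y) i
    rw [← dist_eq_norm] at h1
    have h2 : ‖((F m ∘ γ) x - (F m ∘ γ) y) i‖ = |Real.arctan (T m (WithLp.ofLp (γ x)) i) -
        Real.arctan (T m (WithLp.ofLp (γ y)) i)| / (2 * (m + 2)) := by
      change |Real.arctan (T m (WithLp.ofLp (γ x)) i) / (2 * (m + 2)) -
        Real.arctan (T m (WithLp.ofLp (γ y)) i) / (2 * (m + 2))| = _
      rw [← sub_div, abs_div, abs_of_pos (by positivity : (0 : ℝ) < 2 * (m + 2))]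
    rw [h2, div_le_iff₀ (by positivity)] at h1
    rw [mul_comm]
    exact h1
  rw [hi, top_le_iff] at hle
  by_contra hcon
  exact ENNReal.mul_ne_top ENNReal.ofReal_ne_top hcon hle

/-! ### Dimension one -/

section dimensionOne

/-- The measure of the part of `V` to the left of `t`, minus `1`. -/
noncomputable def squeeze (V : Set ℝ) (t : ℝ) : ℝ := (volume (V ∩ Iio t)).toReal - 1

variable {V : Set ℝ}

lemma squeeze_mem (hvol : volume V ≤ 2) (t : ℝ) : squeeze V t ∈ Icc (-1 : ℝ) 1 := by
  have h1 : volume (V ∩ Iio t) ≤ 2 := (measure_mono inter_subset_left).trans hvol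
  have h2 : (volume (V ∩ Iio t)).toReal ≤ 2 := by
    have := ENNReal.toReal_mono (by norm_num) h1
    simpa using this
  have h3 : 0 ≤ (volume (V ∩ Iio t)).toReal := ENNReal.toReal_nonneg
  unfold squeeze
  constructor <;> linarith

lemma squeeze_sub (hV : IsOpen V) (hvol : volume V ≤ 2) {s t : ℝ} (hst : s ≤ t) :
    squeeze V t - squeeze V s = (volume (V ∩ Ico s t)).toReal := by
  have hfin : ∀ A : Set ℝ, volume (V ∩ A) ≠ ⊤ := fun A =>
    ne_top_of_le_ne_top (by norm_num) ((measure_mono inter_subset_left).trans hvol)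
  have h1 : V ∩ Iio t = (V ∩ Iio s) ∪ (V ∩ Ico s t) := by
    rw [← inter_union_distrib_left, Iio_union_Ico_eq_Iio hst]
  have h2 : volume (V ∩ Iio t) = volume (V ∩ Iio s) + volume (V ∩ Ico s t) := by
    rw [h1]
    refine measure_union ?_ (hV.measurableSet.inter measurableSet_Ico)
    exact Set.disjoint_left.2 fun x hx hx' => absurd hx.2 (not_lt.2 hx'.2.1)
  unfold squeeze
  rw [h2, ENNReal.toReal_add (hfin _) (hfin _)]
  ring

lemma squeeze_local (hV : IsOpen V) (hvol : volume V ≤ 2) {s t : ℝ} (hst : s ≤ t)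
    (h : Icc s t ⊆ V) : squeeze V t - squeeze V s = t - s := by
  rw [squeeze_sub hV hvol hst, inter_eq_right.2 (Ico_subset_Icc_self.trans h), Real.volume_Ico,
    ENNReal.toReal_ofReal (by linarith)]

lemma squeeze_dist (hV : IsOpen V) (hvol : volume V ≤ 2) {s t : ℝ} (h : uIcc s t ⊆ V) :
    dist (squeeze V s) (squeeze V t) = dist s t := by
  wlog hst : s ≤ t generalizing s t
  · rw [dist_comm, dist_comm s]
    exact this (by rwa [uIcc_comm]) (le_of_not_ge hst)
  rw [uIcc_of_le hst] at h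
  rw [dist_comm, dist_comm s, Real.dist_eq, Real.dist_eq, squeeze_local hV hvol hst h]

lemma squeeze_strictMonoOn (hV : IsOpen V) (hvol : volume V ≤ 2) :
    StrictMonoOn (squeeze V) V := by
  intro s hs t _ hst
  rw [← sub_pos, squeeze_sub hV hvol hst.le]
  have hopen : IsOpen (V ∩ Iio t) := hV.inter isOpen_Iio
  obtain ⟨ε, hε, hball⟩ := Metric.isOpen_iff.1 hopen s ⟨hs, hst⟩
  have hsub : Ico s (s + ε) ⊆ V ∩ Ico s t := by
    intro x hx
    have hx' : x ∈ V ∩ Iio t := hball (by
      rw [Metric.mem_ball, Real.dist_eq, abs_of_nonneg (sub_nonneg.2 hx.1)]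
      linarith [hx.2])
    exact ⟨hx'.1, hx.1, hx'.2⟩
  have hfin : volume (V ∩ Ico s t) ≠ ⊤ :=
    ne_top_of_le_ne_top (by norm_num) ((measure_mono inter_subset_left).trans hvol)
  have hpos : 0 < volume (V ∩ Ico s t) := by
    refine lt_of_lt_of_le ?_ (measure_mono hsub)
    rw [Real.volume_Ico]
    simpa using hε
  exact ENNReal.toReal_pos hpos.ne' hfin

lemma squeeze_isOpenEmbedding (hV : IsOpen V) (hvol : volume V ≤ 2) :
    IsOpenEmbedding fun x : V => squeeze V x := by
  have hloc : ∀ x ∈ V, ∃ ε > 0, Metric.ball x ε ⊆ V ∧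
      ∀ y ∈ Metric.ball x ε, squeeze V y = squeeze V x + (y - x) := by
    intro x hx
    obtain ⟨ε, hε, hball⟩ := Metric.isOpen_iff.1 hV x hx
    refine ⟨ε, hε, hball, fun y hy => ?_⟩
    have hconv : uIcc x y ⊆ V := by
      refine Subset.trans ?_ hball
      rw [← segment_eq_uIcc]
      exact (convex_ball x ε).segment_subset (Metric.mem_ball_self hε) hy
    rcases le_total x y with hxy | hxy
    · have := squeeze_local hV hvol hxy (by rwa [uIcc_of_le hxy] at hconv)
      linarith
    · have := squeeze_local hV hvol hxy (by rwa [uIcc_of_ge hxy] at hconv)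
      linarith
  refine IsOpenEmbedding.of_continuous_injective_isOpenMap ?_ ?_ ?_
  · refine ContinuousOn.domRestrict (f := squeeze V) (s := V) fun x hx => ?_
    obtain ⟨ε, hε, -, h⟩ := hloc x hx
    have hc : ContinuousAt (fun y => squeeze V x + (y - x)) x := by fun_prop
    have heq : squeeze V =ᶠ[𝓝 x] fun y => squeeze V x + (y - x) := by
      filter_upwards [Metric.ball_mem_nhds x hε] with y hy using h y hy
    exact (hc.congr heq.symm).continuousWithinAt
  · rintro ⟨x, hx⟩ ⟨y, hy⟩ hxy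
    exact Subtype.ext ((squeeze_strictMonoOn hV hvol).injOn hx hy hxy)
  · rw [isOpenMap_iff_nhds_le]
    rintro ⟨x, hx⟩
    obtain ⟨ε, hε, hballV, h⟩ := hloc x hx
    intro O hO
    rw [Filter.mem_map] at hO
    obtain ⟨δ, hδ, hδO⟩ := Metric.mem_nhds_iff.1 hO
    refine Metric.mem_nhds_iff.2 ⟨min δ ε, lt_min hδ hε, fun z hz => ?_⟩
    have hz' : dist (x + (z - squeeze V x)) x < min δ ε := by
      rw [Real.dist_eq, add_sub_cancel_left]
      exact hz
    have hmem : x + (z - squeeze V x) ∈ Metric.ball x ε := hz'.trans_le (min_le_right _ _)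
    have hVmem : x + (z - squeeze V x) ∈ V := hballV hmem
    have := @hδO ⟨x + (z - squeeze V x), hVmem⟩ (hz'.trans_le (min_le_left _ _))
    have h3 : squeeze V (x + (z - squeeze V x)) = z := by rw [h _ hmem]; ring
    rw [mem_preimage, h3] at this
    exact this

end dimensionOne

lemma dimension_one (U : Set (EuclideanSpace ℝ (Fin 1))) (hU : IsOpen U) (hvol : volume U ≤ 2) :
    ∃ f : EuclideanSpace ℝ (Fin 1) → EuclideanSpace ℝ (Fin 1),
      IsEmbedding (fun x : U => f x) ∧ MapsTo f U (Metric.closedBall 0 1) ∧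
      LengthIncreasing U f := by
  let ι : ℝ ≃ₗᵢ[ℝ] EuclideanSpace ℝ (Fin 1) := (OrthonormalBasis.singleton (Fin 1) ℝ).repr
  set V : Set ℝ := ι ⁻¹' U with hVdef
  have hV : IsOpen V := hU.preimage ι.continuous
  have hVvol : volume V ≤ 2 := by
    rw [hVdef, (LinearIsometryEquiv.measurePreserving ι).measure_preimage
      hU.measurableSet.nullMeasurableSet]
    exact hvol
  refine ⟨fun x => ι (squeeze V (ι.symm x)), ?_, ?_, ?_⟩
  · have h1 : IsEmbedding fun x : U => (⟨ι.symm x, by simp [hVdef]⟩ : V) := by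
      refine IsEmbedding.codRestrict (e := fun x : U => ι.symm x) ?_ _ _
      exact ι.symm.toHomeomorph.isEmbedding.comp IsEmbedding.subtypeVal
    exact ι.toHomeomorph.isEmbedding.comp ((squeeze_isOpenEmbedding hV hVvol).isEmbedding.comp h1)
  · intro x _
    rw [mem_closedBall_zero_iff, LinearIsometryEquiv.norm_map, Real.norm_eq_abs]
    exact abs_le.2 (squeeze_mem hVvol _)
  · intro γ a b hab hγ hmaps _
    unfold curveLength
    rw [← one_mul (eVariationOn (_ ∘ γ) _)]
    refine variation_le fun s hs t ht => ?_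
    rw [one_mul]
    simp only [Function.comp_apply]
    rw [ι.edist_map, edist_dist, edist_dist, squeeze_dist hV hVvol ?_, ι.symm.dist_map]
    have hc : ContinuousOn (fun r => ι.symm (γ r)) (uIcc s t) :=
      ι.symm.continuous.comp_continuousOn (hγ.mono (uIcc_subset_Icc hs ht))
    refine (intermediate_value_uIcc hc).trans ?_
    rintro _ ⟨r, hr, rfl⟩
    simpa [hVdef] using hmaps (uIcc_subset_Icc hs ht hr)

/-- **Answer to Q1 as worded** (topological embeddings).  First part: for every `n ≥ 1` there is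
`ε > 0` such that every open set of volume at most `ε` has a length-increasing embedding into the
closed unit ball.  Second part: for `n ≥ 2` the whole space has an embedding into the open unit
ball which maps every nonconstant rectifiable curve to a curve of infinite length. -/
theorem result :
    (∀ n : ℕ, 1 ≤ n → ∃ ε : ℝ≥0∞, 0 < ε ∧ ∀ U : Set (EuclideanSpace ℝ (Fin n)), IsOpen U →
      volume U ≤ ε → ∃ f : EuclideanSpace ℝ (Fin n) → EuclideanSpace ℝ (Fin n),
        IsEmbedding (fun x : U => f x) ∧ MapsTo f U (Metric.closedBall 0 1) ∧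
        LengthIncreasing U f) ∧
    ∀ n : ℕ, 2 ≤ n → ∃ f : EuclideanSpace ℝ (Fin n) → EuclideanSpace ℝ (Fin n),
      IsEmbedding f ∧ (∀ x, ‖f x‖ < 1) ∧
      ∀ (γ : ℝ → EuclideanSpace ℝ (Fin n)) (a b : ℝ), ContinuousOn γ (Icc a b) →
        curveLength γ a b ≠ ⊤ → (∃ s ∈ Icc a b, ∃ t ∈ Icc a b, γ s ≠ γ t) →
        curveLength (f ∘ γ) a b = ⊤ := by
  have main : ∀ n : ℕ, 2 ≤ n → ∃ f : EuclideanSpace ℝ (Fin n) → EuclideanSpace ℝ (Fin n),
      IsEmbedding f ∧ (∀ x, ‖f x‖ < 1) ∧
      ∀ (γ : ℝ → EuclideanSpace ℝ (Fin n)) (a b : ℝ), ContinuousOn γ (Icc a b) →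
        curveLength γ a b ≠ ⊤ → (∃ s ∈ Icc a b, ∃ t ∈ Icc a b, γ s ≠ γ t) →
        curveLength (f ∘ γ) a b = ⊤ := by
    intro n hn
    obtain ⟨m, rfl⟩ : ∃ m, n = m + 2 := ⟨n - 2, by omega⟩
    refine ⟨F m, F_isEmbedding m, F_mem_ball m, ?_⟩
    rintro γ a b hγ hrect ⟨s, hs, t, ht, hne⟩
    exact F_length m hγ hrect hs ht hne
  refine ⟨fun n hn => ?_, main⟩
  rcases hn.eq_or_lt with rfl | hn2
  · exact ⟨2, by norm_num, dimension_one⟩
  · obtain ⟨f, hf, hball, hlen⟩ := main n hn2
    refine ⟨1, one_pos, fun U _ _ => ⟨f, hf.comp IsEmbedding.subtypeVal, fun x _ => ?_, ?_⟩⟩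
    · rw [mem_closedBall_zero_iff]
      exact (hball x).le
    · intro γ a b _ hγ _ hrect
      by_cases hconst : ∃ s ∈ Icc a b, ∃ t ∈ Icc a b, γ s ≠ γ t
      · rw [hlen γ a b hγ hrect hconst]
        exact le_top
      · push Not at hconst
        have h0 : curveLength γ a b = 0 := by
          refine eVariationOn.constant_on ?_
          rintro _ ⟨s, hs, rfl⟩ _ ⟨t, ht, rfl⟩
          exact hconst s hs t ht
        rw [h0]
        exact zero_le

end Pool.Agent.Results.MP_ecd4e3_gt.TopologicalSponge
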